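import Pool.Agent.Helper84.SPN.St

/-!
# SPN module EMB: `SL_2` of the extension field inside the symplectic group, transitive on the nonzero vectors
-/

set_option autoImplicit false

namespace Pool.Agent.Helper98.SPN

open Pool.Agent.Helper84.SPN Pool.Agent.Helper75.MX Pool.Agent.Helper70.ML

section act
variable (F K : Type) [Field F] [Field K] [Algebra F K]

/-- the action of a matrix on `K × K` -/
def am (g : Matrix (Fin 2) (Fin 2) K) : (K × K) →ₗ[F] (K × K) where
  toFun x := (g 0 0 * x.1 + g 0 1 * x.2, g 1 0 * x.1 + g 1 1 * x.2)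
  map_add' x y := by
    ext <;> simp only [Prod.fst_add, Prod.snd_add] <;> ring
  map_smul' c x := by
    ext <;> simp only [Prod.smul_fst, Prod.smul_snd, RingHom.id_apply, smul_add, mul_smul_comm]

theorem am_mul (g h : Matrix (Fin 2) (Fin 2) K) (x : K × K) :
    am F K (g * h) x = am F K g (am F K h x) := by
  show ((_ : K), (_ : K)) = (_, _)
  refine Prod.ext ?_ ?_
  · show (g * h) 0 0 * x.1 + (g * h) 0 1 * x.2 =
      g 0 0 * (h 0 0 * x.1 + h 0 1 * x.2) + g 0 1 * (h 1 0 * x.1 + h 1 1 * x.2)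
    simp only [Matrix.mul_apply, Fin.sum_univ_two]
    ring
  · show (g * h) 1 0 * x.1 + (g * h) 1 1 * x.2 =
      g 1 0 * (h 0 0 * x.1 + h 0 1 * x.2) + g 1 1 * (h 1 0 * x.1 + h 1 1 * x.2)
    simp only [Matrix.mul_apply, Fin.sum_univ_two]
    ring

theorem am_one (x : K × K) : am F K 1 x = x := by
  refine Prod.ext ?_ ?_
  · show (1 : Matrix (Fin 2) (Fin 2) K) 0 0 * x.1 + (1 : Matrix (Fin 2) (Fin 2) K) 0 1 * x.2 = x.1
    simp
  · show (1 : Matrix (Fin 2) (Fin 2) K) 1 0 * x.1 + (1 : Matrix (Fin 2) (Fin 2) K) 1 1 * x.2 = x.2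
    simp

/-- the action of `SL_2(K)` on `K × K` -/
def ac (g : SLn 2 K) : (K × K) ≃ₗ[F] (K × K) :=
  LinearEquiv.ofLinearMap (am F K g.1) (am F K (g⁻¹).1)
    (by
      ext : 1
      · ext : 1
        show am F K g.1 (am F K (g⁻¹).1 _) = _
        rw [← am_mul, ← Matrix.SpecialLinearGroup.coe_mul, mul_inv_cancel,
          Matrix.SpecialLinearGroup.coe_one, am_one]
        rfl
      · ext : 1
        show am F K g.1 (am F K (g⁻¹).1 _) = _
        rw [← am_mul, ← Matrix.SpecialLinearGroup.coe_mul, mul_inv_cancel,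
          Matrix.SpecialLinearGroup.coe_one, am_one]
        rfl)
    (by
      ext : 1
      · ext : 1
        show am F K (g⁻¹).1 (am F K g.1 _) = _
        rw [← am_mul, ← Matrix.SpecialLinearGroup.coe_mul, inv_mul_cancel,
          Matrix.SpecialLinearGroup.coe_one, am_one]
        rfl
      · ext : 1
        show am F K (g⁻¹).1 (am F K g.1 _) = _
        rw [← am_mul, ← Matrix.SpecialLinearGroup.coe_mul, inv_mul_cancel,
          Matrix.SpecialLinearGroup.coe_one, am_one]
        rfl)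

theorem ac_apply (g : SLn 2 K) (x : K × K) : ac F K g x = am F K g.1 x := rfl

theorem ac_mul (g h : SLn 2 K) (x : K × K) : ac F K (g * h) x = ac F K g (ac F K h x) := by
  rw [ac_apply, ac_apply, ac_apply, Matrix.SpecialLinearGroup.coe_mul, am_mul]

theorem ac_one (x : K × K) : ac F K 1 x = x := by
  rw [ac_apply, Matrix.SpecialLinearGroup.coe_one, am_one]

theorem ac_det (g : SLn 2 K) (x y : K × K) :
    (ac F K g x).1 * (ac F K g y).2 - (ac F K g x).2 * (ac F K g y).1 = x.1 * y.2 - x.2 * y.1 := by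
  have h : g.1 0 0 * g.1 1 1 - g.1 0 1 * g.1 1 0 = 1 := by
    rw [← Matrix.det_fin_two]
    exact g.2
  show (g.1 0 0 * x.1 + g.1 0 1 * x.2) * (g.1 1 0 * y.1 + g.1 1 1 * y.2) -
    (g.1 1 0 * x.1 + g.1 1 1 * x.2) * (g.1 0 0 * y.1 + g.1 0 1 * y.2) = _
  linear_combination (x.1 * y.2 - x.2 * y.1) * h

theorem ac_first (x : K × K) (hx : x ≠ 0) : ∃ g : SLn 2 K, ac F K g (1, 0) = x := by
  obtain ⟨a, c⟩ := x
  by_cases ha : a = 0
  · have hc : c ≠ 0 := by
      rintro rfl
      exact hx (by rw [ha]; rfl)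
    have hd : (!![0, -c⁻¹; c, 0] : Matrix (Fin 2) (Fin 2) K).det = 1 := by
      rw [Matrix.det_fin_two_of, neg_mul, inv_mul_cancel₀ hc]
      ring
    refine ⟨⟨!![0, -c⁻¹; c, 0], hd⟩, ?_⟩
    refine Prod.ext ?_ ?_
    · show (0 : K) * 1 + (-c⁻¹) * 0 = a
      rw [ha]; ring
    · show c * 1 + (0 : K) * 0 = c
      ring
  · have hd : (!![a, 0; c, a⁻¹] : Matrix (Fin 2) (Fin 2) K).det = 1 := by
      rw [Matrix.det_fin_two_of, mul_inv_cancel₀ ha]
      ring
    refine ⟨⟨!![a, 0; c, a⁻¹], hd⟩, ?_⟩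
    refine Prod.ext ?_ ?_
    · show a * 1 + (0 : K) * 0 = a
      ring
    · show c * 1 + a⁻¹ * 0 = c
      ring

theorem ac_trans (x y : K × K) (hx : x ≠ 0) (hy : y ≠ 0) : ∃ g : SLn 2 K, ac F K g x = y := by
  obtain ⟨g, hg⟩ := ac_first F K x hx
  obtain ⟨h, hh⟩ := ac_first F K y hy
  refine ⟨h * g⁻¹, ?_⟩
  rw [← hg, ← ac_mul, mul_assoc, inv_mul_cancel, mul_one, hh]

end act

section psi
variable {F K : Type} [Field F] [Field K] [Algebra F K] [FiniteDimensional F K] [Algebra.IsSeparable F K]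
  {n : ℕ} (b : Module.Basis (Fin n) F K)

/-- the coordinates -/
noncomputable def Psi : VV n F ≃ₗ[F] (K × K) :=
  LinearEquiv.prodCongr b.equivFun.symm b.traceDual.equivFun.symm

theorem Psi_fst (v : VV n F) : (Psi b v).1 = ∑ i, v.1 i • b i := b.equivFun_symm_apply v.1

theorem Psi_snd (v : VV n F) : (Psi b v).2 = ∑ i, v.2 i • b.traceDual i :=
  b.traceDual.equivFun_symm_apply v.2

theorem tr_pair (a c : Fin n → F) :
    Algebra.trace F K ((∑ i, a i • b i) * ∑ j, c j • b.traceDual j) = ∑ i, a i * c i := by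
  rw [Finset.sum_mul, map_sum]
  refine Finset.sum_congr rfl fun i _ => ?_
  rw [Finset.mul_sum, map_sum]
  rw [Finset.sum_eq_single i]
  · rw [smul_mul_smul_comm, map_smul, Module.Basis.trace_mul_traceDual, if_pos rfl, smul_eq_mul, mul_one]
  · intro j _ hj
    rw [smul_mul_smul_comm, map_smul, Module.Basis.trace_mul_traceDual, if_neg (Ne.symm hj), smul_zero]
  · intro h
    exact absurd (Finset.mem_univ i) h

theorem tr_om (v w : VV n F) :
    Algebra.trace F K ((Psi b v).1 * (Psi b w).2 - (Psi b v).2 * (Psi b w).1) = om v w := by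
  rw [map_sub, Psi_fst, Psi_snd, Psi_fst, Psi_snd, tr_pair, mul_comm (∑ i, v.2 i • b.traceDual i), tr_pair,
    om, ← Finset.sum_sub_distrib]
  refine Finset.sum_congr rfl fun i _ => ?_
  ring

/-- the embedding -/
noncomputable def emb (g : SLn 2 K) : SpG n F :=
  ⟨((Psi b).trans (ac F K g)).trans (Psi b).symm, by
    intro v w
    have h : ∀ x, Psi b ((((Psi b).trans (ac F K g)).trans (Psi b).symm) x) = ac F K g (Psi b x) :=
      fun x => (Psi b).apply_symm_apply _
    rw [← tr_om b, h, h, ac_det, tr_om]⟩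

theorem emb_psi (g : SLn 2 K) (v : VV n F) : Psi b ((emb b g).1 v) = ac F K g (Psi b v) :=
  (Psi b).apply_symm_apply _

/-- the embedding as a homomorphism -/
noncomputable def embH : SLn 2 K →* SpG n F where
  toFun := emb b
  map_one' := by
    apply Subtype.ext
    apply LinearEquiv.ext
    intro v
    apply (Psi b).injective
    rw [emb_psi, ac_one]
    rfl
  map_mul' g h := by
    apply Subtype.ext
    apply LinearEquiv.ext
    intro v
    apply (Psi b).injective
    rw [emb_psi, ac_mul]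
    show _ = Psi b ((emb b g).1 ((emb b h).1 v))
    rw [emb_psi, emb_psi]

theorem embH_trans (v w : VV n F) (hv : v ≠ 0) (hw : w ≠ 0) : ∃ x, (embH b x).1 v = w := by
  obtain ⟨g, hg⟩ := ac_trans F K (Psi b v) (Psi b w)
    (fun h => hv ((LinearEquiv.map_eq_zero_iff (Psi b)).1 h))
    (fun h => hw ((LinearEquiv.map_eq_zero_iff (Psi b)).1 h))
  refine ⟨g, ?_⟩
  apply (Psi b).injective
  show Psi b ((emb b g).1 v) = _
  rw [emb_psi, hg]

end psi

theorem hEMB : StEMB := by
  intro n F _ _ hn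
  have : NeZero n := ⟨by omega⟩
  obtain ⟨p, hp⟩ := CharP.exists F
  have : Fact p.Prime := ⟨CharP.char_is_prime F p⟩
  have hfin : Module.finrank F (FiniteField.Extension F p n) = n := FiniteField.finrank_extension F p n
  let b : Module.Basis (Fin n) F (FiniteField.Extension F p n) := Module.finBasisOfFinrankEq F _ hfin
  exact ⟨FiniteField.Extension F p n, inferInstance, inferInstance, FiniteField.natCard_extension F p n,
    embH b, embH_trans b⟩

end Pool.Agent.Helper98.SPN
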